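import Pool.Agent.helper54.UG.Spec

/-! Row ug:G0: Theorem G for a space of logarithms, by induction on the dimension. -/

set_option autoImplicit false

namespace Pool.Agent.UG

open Matrix Pool.Agent.H48SL

theorem G0 (hCOM : COM_stmt) (hN2 : N2_stmt) (hR1 : R1_stmt) (hFMA : FMA_stmt) (hZD : ZD_stmt)
    (hCLA : CLA_stmt) (hTRV : TRV_stmt) (hSTP : STP_stmt) (hCNJ : CNJ_stmt) : G0_stmt := by
  intro n
  induction n with
  | zero =>
    intro hn
    omega
  | succ m ih =>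
    intro hn H hZ 𝔞 hA hL hS
    by_cases hR : NoR1 𝔞
    · obtain ⟨v, hv0, hv⟩ := hCOM (m + 1) (by omega) 𝔞 hA
      obtain ⟨H', 𝔞', hfin, hZ', hA', hL', hS', hR', hk'⟩ :=
        hCNJ m (by omega) H 𝔞 hZ hA hL hS hR v hv0 hv
      apply hfin
      obtain ⟨a1, l1, s1⟩ := hSTP m H' 𝔞' hk' hA' hL' hS' hR'
      rcases Nat.lt_or_ge m 3 with hm | hm
      · have hm2 : m = 2 := by omega
        subst hm2
        exact absurd s1 (hN2 _ a1)
      · obtain ⟨X, hX⟩ := hFMA m H' 𝔞' hA' hL' hS' hR'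
        have hZb := hZD m hm H' X hZ' hX
        have hfb := ih hm (Hb H') hZb _ a1 l1 s1
        obtain ⟨τ, t0, t1, t2⟩ := hCLA m hm H' X hZ' hX hfb
        exact hTRV m (by omega) H' hZ' hfb τ t0 t1 t2
    · exact hR1 (m + 1) hn H hZ 𝔞 hA hL hS hR

end Pool.Agent.UG
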