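import Pool.Agent.helper54.UG.Spec3

/-! Row ug:SI2: Theorem O when there is a totally isotropic plane. -/

set_option autoImplicit false

namespace Pool.Agent.UG

open Matrix Pool.Agent.H48SL

theorem SI2_bf {n : ℕ} (S g : MQ n) (x y : Fin n → ℚ) :
    bf (gᵀ * S * g) x y = bf S (g *ᵥ x) (g *ᵥ y) := by
  unfold bf
  rw [← Matrix.mulVec_mulVec, ← Matrix.mulVec_mulVec, Matrix.dotProduct_mulVec x gᵀ,
    Matrix.vecMul_transpose]

theorem SI2_det {n : ℕ} (g : SLZ n) : (qg g).det = 1 := by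
  unfold qg
  rw [← RingHom.map_det, g.2, map_one]

theorem SI2 (hSCJ : SCJ_stmt) (hSFM : SFM_stmt) (hSGB : SGB_stmt) (hKBT : KBT_stmt) : SI2_stmt := by
  intro n hn S H hS hdet hO hZ p₁ p₂ hli h11 h12 h22
  obtain ⟨m, rfl⟩ : ∃ m, n = m + 1 := ⟨n - 1, by omega⟩
  have hp1 : p₁ ≠ 0 := hli.ne_zero 0
  obtain ⟨g, c, H', hc, hg, hZ', hO', hfin⟩ := hSCJ m (by omega) S H hZ hO p₁ hp1
  apply hfin
  set S' : MQ (m + 1) := (qg g)ᵀ * S * qg g with hS'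
  have hsym : S'ᵀ = S' := by
    rw [hS', Matrix.transpose_mul, Matrix.transpose_mul, Matrix.transpose_transpose, hS, mul_assoc]
  have hdet' : S'.det ≠ 0 := by
    rw [hS', Matrix.det_mul, Matrix.det_mul, Matrix.det_transpose, SI2_det, one_mul, mul_one]
    exact hdet
  have hgg : ∀ x : Fin (m + 1) → ℚ, qg g *ᵥ (qg g⁻¹ *ᵥ x) = x := by
    intro x
    rw [Matrix.mulVec_mulVec, ← qg_mul, mul_inv_cancel, qg_one, Matrix.one_mulVec]
  have hb : ∀ x y : Fin (m + 1) → ℚ, bf S' (qg g⁻¹ *ᵥ x) (qg g⁻¹ *ᵥ y) = bf S x y := by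
    intro x y
    rw [hS', SI2_bf, hgg, hgg]
  have hli' : LinearIndependent ℚ ![qg g⁻¹ *ᵥ p₁, qg g⁻¹ *ᵥ p₂] := by
    rw [LinearIndependent.pair_iff] at hli ⊢
    intro s t hst
    apply hli s t
    have h := congrArg (fun x => qg g *ᵥ x) hst
    simp only [Matrix.mulVec_add, Matrix.mulVec_smul, hgg, Matrix.mulVec_zero] at h
    exact h
  have h00 : bf S' (e0 m) (e0 m) = 0 := by
    rw [hS', SI2_bf, hg]
    unfold bf at h11 ⊢
    rw [Matrix.mulVec_smul, smul_dotProduct, dotProduct_smul, h11, smul_zero, smul_zero]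
  obtain ⟨X, hX⟩ := hSFM m S' H' hsym hdet' hO' (qg g⁻¹ *ᵥ p₁) (qg g⁻¹ *ᵥ p₂) hli'
    (by rw [hb, h11]) (by rw [hb, h12]) (by rw [hb, h22])
  obtain ⟨𝔟, b1, b2, b3, b4⟩ := hSGB m (by omega) S' H' hsym hdet' hO' h00
  exact hKBT m (by omega) H' X 𝔟 hZ' hX b1 b2 b3 b4

end Pool.Agent.UG
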